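import Pool.Agent.Helper81.OP.Defs

/-!
# op_mods.DOM: the piece realises the dominated state
-/

set_option autoImplicit false

open SimpleGraph
open scoped Classical ENNReal

namespace Pool.Agent.Helper81.OP

theorem dom_foldr (g : List ℕ) (L : List ℕ) (j : ℕ) :
    (L.foldr (fun i s => s ||| 2 ^ g.getD i 0) 0).testBit j = true ↔
      ∃ i ∈ L, g.getD i 0 = j := by
  induction L with
  | nil => simp
  | cons a L ih =>
    rw [List.foldr_cons, Nat.testBit_or, Bool.or_eq_true, ih, Nat.testBit_two_pow]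
    simp only [List.mem_cons, decide_eq_true_eq]
    constructor
    · rintro (⟨i, h1, h2⟩ | h)
      · exact ⟨i, Or.inr h1, h2⟩
      · exact ⟨a, Or.inl rfl, h⟩
    · rintro ⟨i, rfl | h1, h2⟩
      · exact Or.inr h2
      · exact Or.inl ⟨i, h1, h2⟩

theorem dom_mmap (g : List ℕ) (m j : ℕ) :
    (mmap g m).testBit j = true ↔ ∃ i < g.length, m.testBit i = true ∧ g.getD i 0 = j := by
  unfold mmap
  rw [dom_foldr]
  constructor
  · rintro ⟨i, h1, h2⟩
    rw [List.mem_filter, List.mem_range] at h1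
    exact ⟨i, h1.1, h1.2, h2⟩
  · rintro ⟨i, h1, h2, h3⟩
    exact ⟨i, by rw [List.mem_filter, List.mem_range]; exact ⟨h1, h2⟩, h3⟩

theorem dom_foldr_lt (g : List ℕ) (L : List ℕ) (q : ℕ) (h : ∀ i ∈ L, g.getD i 0 < q) :
    L.foldr (fun i s => s ||| 2 ^ g.getD i 0) 0 < 2 ^ q := by
  induction L with
  | nil => simp
  | cons a L ih =>
    rw [List.foldr_cons]
    apply Nat.or_lt_two_pow
    · exact ih fun i hi => h i (List.mem_cons_of_mem _ hi)
    · exact Nat.pow_lt_pow_right (by norm_num) (h a List.mem_cons_self)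

theorem dom_getD {g : List ℕ} {q : ℕ} (hg : ∀ x ∈ g, x < q) {i : ℕ} (hi : i < g.length) :
    g.getD i 0 < q := by
  rw [List.getD_eq_getElem _ _ hi]
  exact hg _ (List.getElem_mem hi)

theorem dom_inj {g : List ℕ} (hg : g.Nodup) {i j : ℕ} (hi : i < g.length) (hj : j < g.length)
    (h : g.getD i 0 = g.getD j 0) : i = j := by
  rw [List.getD_eq_getElem _ _ hi, List.getD_eq_getElem _ _ hj] at h
  exact (List.Nodup.getElem_inj_iff hg).1 h

theorem dom_mmap_lt {g : List ℕ} {q : ℕ} (hg : ∀ x ∈ g, x < q) (m : ℕ) :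
    mmap g m < 2 ^ q := by
  unfold mmap
  apply dom_foldr_lt
  intro i hi
  rw [List.mem_filter, List.mem_range] at hi
  exact dom_getD hg hi.1

theorem dom_mem_fm {V : Type} {f : ℕ → V} {m : ℕ} {v : V} :
    v ∈ fm f m ↔ ∃ i < 6, m.testBit i = true ∧ f i = v := by
  unfold fm
  rw [Finset.mem_image]
  constructor
  · rintro ⟨i, h1, h2⟩
    rw [Finset.mem_filter, Finset.mem_range] at h1
    exact ⟨i, h1.1, h1.2, h2⟩
  · rintro ⟨i, h1, h2, h3⟩
    exact ⟨i, by rw [Finset.mem_filter, Finset.mem_range]; exact ⟨h1, h2⟩, h3⟩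

theorem dom_bit_lt {m n i : ℕ} (h : m < 2 ^ n) (hb : m.testBit i = true) : i < n := by
  by_contra hi
  have : m < 2 ^ i := lt_of_lt_of_le h (Nat.pow_le_pow_right (by norm_num) (by omega))
  rw [Nat.testBit_lt_two_pow this] at hb
  exact absurd hb (by simp)

theorem dom_fm {V : Type} (f : ℕ → V) {g : List ℕ} {q m : ℕ} (hq : q ≤ 6)
    (hg : ∀ x ∈ g, x < q) (hl : g.length ≤ 6) (hm : m < 2 ^ g.length) :
    fm (fun i => f (g.getD i 0)) m = fm f (mmap g m) := by
  ext v
  rw [dom_mem_fm, dom_mem_fm]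
  constructor
  · rintro ⟨i, h1, h2, h3⟩
    have hi := dom_bit_lt hm h2
    exact ⟨g.getD i 0, (dom_getD hg hi).trans_le hq, (dom_mmap g m _).2 ⟨i, hi, h2, rfl⟩, h3⟩
  · rintro ⟨j, h1, h2, h3⟩
    obtain ⟨i, hi, h4, h5⟩ := (dom_mmap g m _).1 h2
    exact ⟨i, by omega, h4, by rw [h5]; exact h3⟩

theorem dom_fm_or {V : Type} (f : ℕ → V) (m n : ℕ) :
    fm f (m ||| n) = fm f m ∪ fm f n := by
  ext v
  rw [Finset.mem_union, dom_mem_fm, dom_mem_fm, dom_mem_fm]
  constructor
  · rintro ⟨i, h1, h2, h3⟩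
    rw [Nat.testBit_or, Bool.or_eq_true] at h2
    rcases h2 with h2 | h2
    · exact Or.inl ⟨i, h1, h2, h3⟩
    · exact Or.inr ⟨i, h1, h2, h3⟩
  · rintro (⟨i, h1, h2, h3⟩ | ⟨i, h1, h2, h3⟩)
    · exact ⟨i, h1, by rw [Nat.testBit_or, h2, Bool.true_or], h3⟩
    · exact ⟨i, h1, by rw [Nat.testBit_or, h2, Bool.or_true], h3⟩

theorem dom_fm_two {V : Type} (f : ℕ → V) {b : ℕ} (hb : b < 6) : fm f (2 ^ b) = {f b} := by
  ext v
  rw [dom_mem_fm, Finset.mem_singleton]
  constructor
  · rintro ⟨i, h1, h2, h3⟩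
    rw [Nat.testBit_two_pow, decide_eq_true_eq] at h2
    rw [h2, h3]
  · intro h
    exact ⟨b, hb, by rw [Nat.testBit_two_pow]; simp, h.symm⟩

theorem dom_D_zero {V : Type} (G : SimpleGraph V) (B Y : Finset V) : D G B Y 0 :=
  ⟨∅, ∅, Finset.empty_subset _,
    ⟨fun A hA => absurd hA (Finset.notMem_empty _), fun A hA => absurd hA (Finset.notMem_empty _),
      fun A hA => absurd hA (Finset.notMem_empty _), fun A hA => absurd hA (Finset.notMem_empty _)⟩,
    fun A hA => absurd hA (Finset.notMem_empty _), by simp⟩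

theorem dom_D_mono {V : Type} {G : SimpleGraph V} {B Y : Finset V} {v w : ℕ} (h : D G B Y v)
    (hw : w ≤ v) : D G B Y w := by
  obtain ⟨X, A, h1, h2, h3, h4⟩ := h
  exact ⟨X, A, h1, h2, h3, by omega⟩

/-- facts about the states -/
def domFacts (n : ℕ) (σ : St) : Prop :=
  σ.S = 2 ^ n - 1 ∧ (∀ W < 64, 2 ^ n ≤ W → dig σ.h W = 0) ∧
  ∀ t ∈ σ.T, t.1 < n ∧ t.2.1 < n ∧ t.1 ≠ t.2.1 ∧ t.2.2 < 2 ^ n ∧ t.2.2.testBit t.1 = false

theorem dom_facts3 : domFacts 3 st3 := by
  unfold domFacts
  refine ⟨by decide, by decide +kernel, by decide +kernel⟩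

theorem dom_facts4 : ∀ σ ∈ fours, domFacts 4 σ := by
  unfold domFacts
  intro σ hσ
  simp only [fours, List.mem_cons, List.not_mem_nil, or_false] at hσ
  rcases hσ with rfl | rfl | rfl | rfl
  all_goals exact ⟨by decide, by decide +kernel, by decide +kernel⟩

theorem st_DOM (hS : ST_SRCH) (hN : ST_NEWH) : ST_DOM := by
  intro V G f q R bs Cs g σ hq hC hR hP hσ hnd hg hR' hdom
  have hfacts : domFacts g.length σ ∧ g.length ≤ 6 := by
    rcases hσ with ⟨rfl, h⟩ | ⟨h1, h⟩
    · rw [h]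
      exact ⟨dom_facts3, by norm_num⟩
    · rw [h]
      exact ⟨dom_facts4 σ h1, by norm_num⟩
  obtain ⟨⟨hfS, hfh, hfT⟩, hlen⟩ := hfacts
  unfold domi at hdom
  rw [Bool.and_eq_true, List.all_eq_true, List.all_eq_true] at hdom
  obtain ⟨hd1, hd2⟩ := hdom
  have hpos : 0 < 2 ^ g.length := by positivity
  have hfmS : fm (fun i => f (g.getD i 0)) σ.S = fm f R := by
    rw [dom_fm f hq hg hlen (by rw [hfS]; omega), hR']
  have hbitS : ∀ i < g.length, σ.S.testBit i = true := by
    intro i hi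
    rw [hfS, Nat.testBit_two_pow_sub_one]
    simpa using hi
  refine ⟨?_, ?_, ?_⟩
  · rw [hfmS]
    exact hP
  · intro t ht
    obtain ⟨f1, f2, f3, f4, f5⟩ := hfT t ht
    have hs := hd2 t ht
    unfold hasTy at hs
    have ha := dom_getD hg f1
    have hb := dom_getD hg f2
    set a := g.getD t.1 0 with ha'
    set b := g.getD t.2.1 0 with hb'
    set U := mmap g t.2.2 with hU
    have hab : a ≠ b := fun h => f3 (dom_inj hnd f1 f2 h)
    have hRa : R.testBit a = true := by
      rw [← hR']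
      exact (dom_mmap g _ _).2 ⟨t.1, f1, hbitS _ f1, rfl⟩
    have hUa : U.testBit a = false := by
      by_contra h
      have h' : U.testBit a = true := by simpa using h
      obtain ⟨i, hi, h1, h2⟩ := (dom_mmap g _ _).1 h'
      have := dom_inj hnd hi f1 h2
      rw [this, f5] at h1
      exact absurd h1 (by simp)
    have hrem : ((2 ^ q - 1) ^^^ R) ||| U ||| 2 ^ b < 2 ^ q := by
      apply Nat.or_lt_two_pow
      · apply Nat.or_lt_two_pow
        · apply Nat.xor_lt_two_pow
          · have : 0 < 2 ^ q := by positivity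
            omega
          · exact hR
        · exact dom_mmap_lt hg _
      · exact Nat.pow_lt_pow_right (by norm_num) hb
    have hbit : (((2 ^ q - 1) ^^^ R) ||| U ||| 2 ^ b).testBit a = false := by
      rw [Nat.testBit_or, Nat.testBit_or, Nat.testBit_xor, hRa, hUa, Nat.testBit_two_pow,
        Nat.testBit_two_pow_sub_one]
      have h1 : decide (a < q) = true := by simpa using ha
      have h2 : decide (b = a) = false := by simpa using fun h => hab h.symm
      rw [h1, h2]
      rfl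
    have hHP := hS V G f q 7 b a _ bs Cs hq hC hb ha hrem hbit hs
    have hset : insert (f a) (fm f (((2 ^ q - 1) ^^^ R) ||| U ||| 2 ^ b)) ∪ un Cs =
        fm f ((2 ^ q - 1) ^^^ R) ∪ un Cs ∪ {f a, f b} ∪
          fm (fun i => f (g.getD i 0)) t.2.2 := by
      rw [dom_fm f hq hg hlen f4, dom_fm_or, dom_fm_or, dom_fm_two f (hb.trans_le hq)]
      ext v
      simp only [Finset.mem_union, Finset.mem_insert, Finset.mem_singleton]
      tauto
    rw [hset] at hHP
    exact hHP
  · intro W hW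
    by_cases h0 : dig σ.h W = 0
    · rw [h0]
      exact dom_D_zero _ _ _
    · have hWl : W < 2 ^ g.length := by
        by_contra h
        exact h0 (hfh W hW (by omega))
      have h1 := hd1 W (List.mem_range.2 hWl)
      rw [Bool.or_eq_true, decide_eq_true_eq, decide_eq_true_eq] at h1
      rcases h1 with h1 | h1
      · exact absurd h1 h0
      · rw [dom_fm f hq hg hlen hWl]
        refine dom_D_mono (hN V G f q R bs Cs hq hC hR hP.nb (mmap g W) ?_) h1
        apply Nat.eq_of_testBit_eq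
        intro j
        rw [Nat.testBit_and]
        by_cases hj : (mmap g W).testBit j = true
        · rw [hj, Bool.true_and]
          obtain ⟨i, hi, _, h3⟩ := (dom_mmap g _ _).1 hj
          rw [← hR']
          exact (dom_mmap g _ _).2 ⟨i, hi, hbitS _ hi, h3⟩
        · have hj' : (mmap g W).testBit j = false := by simpa using hj
          rw [hj', Bool.false_and]

end Pool.Agent.Helper81.OP
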